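import Pool.Agent.H50.ODG.Targets

set_option autoImplicit false

open Pool.Agent.H57.CP Pool.Agent.H39.TO Pool.Agent.H39.OD Pool.Agent.H50.ODG

namespace Pool.Agent.H80.ODG

theorem xa_comm (x y : V4) : mk x y = mk y x := by
  simp only [mk]; ring

theorem xa_addl (x y z : V4) : mk (x + y) z = mk x z + mk y z := by
  simp only [mk, Pi.add_apply]; ring

theorem xa_smull (r : ℝ) (x z : V4) : mk (r • x) z = r * mk x z := by
  simp only [mk, Pi.smul_apply, smul_eq_mul]; ring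

theorem xa_addr (x y z : V4) : mk z (x + y) = mk z x + mk z y := by
  simp only [mk, Pi.add_apply]; ring

theorem xa_smulr (r : ℝ) (x z : V4) : mk z (r • x) = r * mk z x := by
  simp only [mk, Pi.smul_apply, smul_eq_mul]; ring

theorem xa_negl (x z : V4) : mk (-x) z = -mk x z := by
  simp only [mk, Pi.neg_apply]; ring

theorem xa_negr (x z : V4) : mk z (-x) = -mk z x := by
  simp only [mk, Pi.neg_apply]; ring

theorem xa_subl (x y z : V4) : mk (x - y) z = mk x z - mk y z := by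
  simp only [mk, Pi.sub_apply]; ring

theorem xa_subr (x y z : V4) : mk z (x - y) = mk z x - mk z y := by
  simp only [mk, Pi.sub_apply]; ring

theorem xa_refl (a x : V4) : refl a x = x + (2 * mk a x) • a := by
  ext i
  rfl

/-- reflections are symmetric -/
theorem xa_sym (a x y : V4) : mk (refl a x) y = mk x (refl a y) := by
  rw [xa_refl, xa_refl, xa_addl, xa_addr, xa_smull, xa_smulr, xa_comm x a]
  ring

/-- reflections are involutions -/
theorem xa_invol (a x : V4) (ha : mk a a = -1) : refl a (refl a x) = x := by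
  rw [xa_refl a (refl a x), xa_refl a x, xa_addr, xa_smulr, ha]
  module

/-- conjugation -/
theorem xa_conj (a b : V4) (ha : mk a a = -1) : refl (refl a b) = refl a * refl b * refl a := by
  apply LinearMap.ext
  intro v
  rw [Module.End.mul_apply, Module.End.mul_apply, xa_refl (refl a b) v, xa_refl b (refl a v),
    map_add, map_smul, xa_invol a v ha, xa_sym]

theorem xa_neg (a : V4) : refl (-a) = refl a := by
  apply LinearMap.ext
  intro v
  rw [xa_refl, xa_refl, xa_negl]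
  module

/-- closures of two reflections -/
theorem xa_C2le (m n : V4) (G : Submonoid (Module.End ℝ V4)) (hm : refl m ∈ G)
    (hn : refl n ∈ G) :
    C2 m n ≤ G := by
  rw [C2, Submonoid.closure_le]
  intro g hg
  rcases hg with rfl | rfl
  · exact hm
  · exact hn

theorem xa_C2l (m n : V4) : (refl m : Module.End ℝ V4) ∈ C2 m n :=
  Submonoid.subset_closure (Set.mem_insert _ _)

theorem xa_C2r (m n : V4) : (refl n : Module.End ℝ V4) ∈ C2 m n :=
  Submonoid.subset_closure (Set.mem_insert_of_mem _ rfl)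

/-- conjugates in submonoids -/
theorem xa_mem (a b : V4) (G : Submonoid (Module.End ℝ V4)) (h : mk a a = -1) (ha : refl a ∈ G)
    (hb : refl b ∈ G) : refl (refl a b) ∈ G := by
  rw [xa_conj a b h]
  exact G.mul_mem (G.mul_mem ha hb) ha

/-- the configuration in terms of the cosine -/
theorem xa_core (hCHV : T_CHV) (hVSR : T_VSR) (hLIP : T_LIP) (hLOR : T_LOR) (hMKI : T_MKI)
    (hNR3 : T_NR3)
    (p : ℕ) (hp : 7 ≤ p) (c K : ℝ) (hc : Real.cos (Real.pi / p) = c) (hK : K = 4 * c ^ 2 - 1)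
    (hK0 : 0 < K)
    (x x' : H3) (n0 n1 n2 : V4) (u0 : mk n0 n0 = -1) (u1 : mk n1 n1 = -1) (u2 : mk n2 n2 = -1)
    (e02 : mk n0 n2 = 1 / 2) (e12 : mk n1 n2 = c) (e01 : mk n0 n1 = 4 * c ^ 3 - 3 * c)
    (xa : mk x.1 n0 = 0) (xc : mk x.1 n2 = 0) (yb : mk x'.1 n1 = 0) (yc : mk x'.1 n2 = 0)
    (xb : mk x.1 n1 < 0) (ya : mk x'.1 n0 < 0) : XV x x' n0 n1 n2 := by
  have hKn : K ≠ 0 := hK0.ne'
  obtain ⟨m, hm⟩ : ∃ m : V4, m = K⁻¹ • (n1 - (2 * c) • n0) := ⟨_, rfl⟩
  have m0 : mk m n0 = c := by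
    rw [hm, xa_smull, xa_subl, xa_smull, u0, xa_comm n1 n0, e01, inv_mul_eq_iff_eq_mul₀ hKn, hK]
    ring
  have m1' : mk m n1 = 1 - 2 * c ^ 2 := by
    rw [hm, xa_smull, xa_subl, xa_smull, u1, e01, inv_mul_eq_iff_eq_mul₀ hKn, hK]
    ring
  have mm : mk m m = -1 := by
    conv_lhs => rw [hm]
    rw [xa_smull, xa_subl, xa_smull, ← hm, xa_comm n1 m, xa_comm n0 m, m0, m1',
      inv_mul_eq_iff_eq_mul₀ hKn, hK]
    ring
  have m2 : mk m n2 = 0 := by
    rw [hm, xa_smull, xa_subl, xa_smull, e02, e12]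
    ring
  have hn1 : n1 = K • m + (2 * c) • n0 := by
    rw [hm, smul_smul, mul_inv_cancel₀ hKn, one_smul, sub_add_cancel]
  obtain ⟨y, hy⟩ : ∃ y : V4, y = (2 * c) • m + n0 := ⟨_, rfl⟩
  have ym : mk y m = -c := by
    rw [hy, xa_addl, xa_smull, mm, xa_comm n0 m, m0]; ring
  have y0 : mk y n0 = 2 * c ^ 2 - 1 := by
    rw [hy, xa_addl, xa_smull, m0, u0]; ring
  have yy : mk y y = -1 := by
    conv_lhs => rw [hy]
    rw [xa_addl, xa_smull, ← hy, xa_comm m y, xa_comm n0 y, ym, y0]; ring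
  have y1 : mk y n1 = -c := by
    rw [hy, xa_addl, xa_smull, m1', e01]; ring
  have y2 : mk y n2 = 1 / 2 := by
    rw [hy, xa_addl, xa_smull, m2, e02]; ring
  have hn1' : n1 = (2 * c) • y - m := by
    rw [hn1, hy, hK]; module
  have rmn0 : refl m n0 = y := by
    rw [xa_refl, m0, hy, add_comm]
  have rym : refl y m = -n1 := by
    rw [xa_refl, ym, hn1']; module
  have rmy : refl m y = n0 := by
    rw [← rmn0, xa_invol m n0 mm]
  have ryn1 : refl y n1 = -m := by
    have h := xa_invol y m yy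
    rw [rym, map_neg] at h
    rw [← h, neg_neg]
  obtain ⟨n3, hn3⟩ : ∃ n3 : V4, n3 = -(y + n2) := ⟨_, rfl⟩
  have q2 : mk n3 n2 = 1 / 2 := by
    rw [hn3, xa_negl, xa_addl, y2, u2]; ring
  have qy : mk n3 y = 1 / 2 := by
    rw [hn3, xa_negl, xa_addl, yy, xa_comm n2 y, y2]; ring
  have q1 : mk n3 n1 = 0 := by
    rw [hn3, xa_negl, xa_addl, y1, xa_comm n2 n1, e12]; ring
  have qq : mk n3 n3 = -1 := by
    conv_lhs => rw [hn3]
    rw [xa_negl, xa_addl, ← hn3, xa_comm y n3, xa_comm n2 n3, qy, q2]; ring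
  have ryn2 : refl y n2 = -n3 := by
    rw [xa_refl, y2, hn3]; module
  have r3n2 : refl n3 n2 = -y := by
    rw [xa_refl, q2, hn3]; module
  have r3y : refl n3 y = -n2 := by
    rw [xa_refl, qy, hn3]; module
  have r3n1 : refl n3 n1 = n1 := by
    rw [xa_refl, q1]; module
  -- the group
  obtain ⟨G, hG⟩ : ∃ G : Submonoid (Module.End ℝ V4), G = Gam n0 n2 m := ⟨_, rfl⟩
  have g0 : refl n0 ∈ G := by
    rw [hG]; exact Submonoid.subset_closure (by simp)
  have g2 : refl n2 ∈ G := by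
    rw [hG]; exact Submonoid.subset_closure (by simp)
  have gm : refl m ∈ G := by
    rw [hG]; exact Submonoid.subset_closure (by simp)
  have gy : refl y ∈ G := by
    rw [← rmn0]; exact xa_mem m n0 G mm gm g0
  have g1 : refl n1 ∈ G := by
    rw [← xa_neg n1, ← rym]; exact xa_mem y m G yy gy gm
  have g3 : refl n3 ∈ G := by
    rw [← xa_neg n3, ← ryn2]; exact xa_mem y n2 G yy gy g2
  have hle : Gam n0 n1 n2 ≤ G := by
    rw [Gam, Submonoid.closure_le]
    intro g hg
    rcases hg with rfl | rfl | rfl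
    · exact g0
    · exact g1
    · exact g2
  -- the base points
  obtain ⟨g, hgi, hge⟩ := hMKI (refl n3) (hLOR.2.2 n3 qq).1
  obtain ⟨z, hz⟩ : ∃ z : H3, z.1 = refl n3 x'.1 := ⟨g x', (hge x').symm⟩
  have z1 : mk z.1 n1 = 0 := by
    rw [hz, xa_sym, r3n1, yb]
  have zy : mk z.1 y = 0 := by
    rw [hz, xa_sym, r3y, xa_negr, yc, neg_zero]
  have zm : mk z.1 m = 0 := by
    have h : m = (2 * c) • y - n1 := by
      rw [hn1']; module
    rw [h, xa_subr, xa_smulr, zy, z1]; ring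
  have z0 : mk z.1 n0 = 0 := by
    have h : n0 = y - (2 * c) • m := by
      rw [hy]; module
    rw [h, xa_subr, xa_smulr, zy, zm]; ring
  have x'y : mk x'.1 y = -(K⁻¹ * mk x'.1 n0) := by
    rw [hy, xa_addr, xa_smulr, hm, xa_smulr, xa_subr, xa_smulr, yb]
    field_simp
    rw [hK]; ring
  have z2 : mk z.1 n2 < 0 := by
    rw [hz, xa_sym, r3n2, xa_negr, x'y, neg_neg]
    exact mul_neg_of_pos_of_neg (inv_pos.mpr hK0) ya
  have xm : mk x.1 m < 0 := by
    rw [hm, xa_smulr, xa_subr, xa_smulr, xa, mul_zero, sub_zero]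
    exact mul_neg_of_pos_of_neg (inv_pos.mpr hK0) xb
  have hxz : x ≠ z := by
    intro h
    rw [← h, xc] at z2
    exact lt_irrefl _ z2
  -- the Coxeter matrix
  have hli : LinearIndependent ℝ ![n0, n2, m] := by
    refine hLIP x.1 n0 n2 m u0 u2 ?_ xa xc xm.ne
    rw [e02]; norm_num
  obtain ⟨M, hM, M01, M02, M12⟩ := hNR3 3 p 2 n0 n2 m (by norm_num) (by omega) (le_refl 2)
    u0 u2 mm
    (by rw [e02]; push_cast; rw [Real.cos_pi_div_three]) (by rw [xa_comm, m0, hc])
    (by rw [xa_comm, m2]; push_cast; rw [Real.cos_pi_div_two]) hli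
  have h := hCHV M ![n0, n2, m] hM x z 0 1 2 0 2 1 (by decide) (by decide) (by decide)
    (by decide) (by decide) (by decide) (by rw [M01]; norm_num) (by rw [M02]; omega) xa xc xm z0 zm z2 hxz
  have h' : VS G (C2 n0 n2) (C2 n0 m) x z := by
    rw [hG]; exact h
  have hC : C2 n0 m = C2 n1 y := by
    apply le_antisymm
    · have a1 := xa_C2l n1 y
      have a2 := xa_C2r n1 y
      have a3 : refl m ∈ C2 n1 y := by
        rw [← xa_neg m, ← ryn1]; exact xa_mem y n1 _ yy a2 a1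
      apply xa_C2le
      · rw [← rmy]; exact xa_mem m y _ mm a3 a2
      · exact a3
    · have a1 := xa_C2l n0 m
      have a2 := xa_C2r n0 m
      have a3 : refl y ∈ C2 n0 m := by
        rw [← rmn0]; exact xa_mem m n0 _ mm a2 a1
      apply xa_C2le
      · rw [← xa_neg n1, ← rym]; exact xa_mem y m _ yy a3 a2
      · exact a3
  rw [hC] at h'
  have h2 := hVSR.2.2.1 G (C2 n0 n2) n1 y n3 x z x' qq g3 (by rw [hz, xa_invol n3 _ qq]) h'
  rw [r3n1, r3y, (hVSR.2.2.2 n1 (-n2)).1, (hVSR.2.2.2 n2 n1).2, (hVSR.2.2.2 n2 n1).1] at h2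
  exact hVSR.1 G _ _ _ _ _ hle h2

theorem pf_XA4 (hCHV : T_CHV) (hNR3 : T_NR3) (hVSR : T_VSR) (hLIP : T_LIP) (hLOR : T_LOR)
    (hMKI : T_MKI) (hYK : T_YK) : T_XA4 := by
  intro p x x' n0 n1 n2 hp hC
  have hp0 : (0 : ℝ) < p := by
    have : (7 : ℝ) ≤ p := by exact_mod_cast hp
    linarith
  have hp7 : (7 : ℝ) ≤ p := by exact_mod_cast hp
  have hc : 1 / 2 < Real.cos (Real.pi / p) := by
    rw [← Real.cos_pi_div_three]
    apply Real.cos_lt_cos_of_nonneg_of_le_pi
    · positivity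
    · have := Real.pi_pos; linarith
    · apply div_lt_div_of_pos_left Real.pi_pos (by norm_num)
      linarith
  refine xa_core hCHV hVSR hLIP hLOR hMKI hNR3 p hp _ _ rfl rfl ?_ x x' n0 n1 n2
    hC.u0 hC.u1 hC.u2 ?_ ?_ ?_ hC.xa hC.xc hC.yb hC.yc hC.xb hC.ya
  · nlinarith
  · rw [hC.e02, cn, ← Real.cos_pi_div_three]
    congr 1
    push_cast; ring
  · rw [hC.e12, cn]
    congr 1
    push_cast; ring
  · rw [hC.e01, cn, ← Real.cos_three_mul]
    congr 1
    push_cast; ring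

end Pool.Agent.H80.ODG
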